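import Pool.Agent.W_4481e3_q87.GoR
import Pool.Agent.W_4481e3_tab.T3

/-!
Tree s32o3, data 3.
-/

namespace Pool.Agent.W_4481e3_rt.s32o3

open Pool.Agent.W_4481e3_q25.EvR

theorem k58 : ckO Pool.Agent.W_4481e3_tab.T3.tab 15072 19280 268435456 131072 185139 262144 20 3670016 524288 2621440 524288 518940262 525963689 3883795 3734963 268414678 268451886 16777216 16777216 264766 264766 0x103000c03007c103007c03000c03007c2104007c03006c04007c282a7c7a7b97199992120300ac3829557a80f708015f08015f08015f208015f08015f21210300ac401001c94320300ec0300ac30300ec05007c05007c12103001c40300ac94308015f0400ec09015f210300ec308015f09029f209029f0a015f09029f2109029f09029f09029f212120300ac403001c94939430400ec0501cc203001c407007c07007c210400ec03001c303001c430a015f07007c07007d218370e79d9970c015f0b015f0b015f0b015f12120c004d03001d3407007c07007c207007c107007d07007d07007c4207007c07007c2121839ac79cb570400ec0400ec0400ec103001c4203001d30400ec07007c10803ac03001c403001d307007c07007d212103001c43203001d03001c3403001d03001c401001c30594312182f5c7a6257203006c04007c203007c04007c2104007c04007c05007c205007c1204007c05007c2107000c07007c207070c107007c07007c107007c07007c207007d1207007c07007d2120503001c9403001c3407000c07000c107000c07007c07007c1207000c07000c21283fc17a5dc7103001c03001d03001d0603ac21203001c401001c94307000c07000c107000c07007d207000c07000c21283fc17a5dc7103001d432839d17a779704007c05007c205007c106000c07070c07000c1205007c05070c212121203007c03007c103007c04007c205070c105007c05070c05007c1205007c05070c21204007c04007c105007c05007c205007c05007c05007c1212121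 = true := by decide +kernel

theorem k61 : ckO Pool.Agent.W_4481e3_tab.T3.tab 15072 19280 268435456 131072 185139 262144 17 3670016 524288 2621440 524288 511768002 529698652 3586130 7172260 268435456 268435456 16777216 16777216 264766 264766 0x100001c03007c00001c00001c03006c1203007c03006c99921203006c04007c10300ec99908015f21210300ec3940300ec321828827a6e07212100001c00001c2999210901ed200001c0901ed2400001c30b077d0901ed290e01ed2306004d06004d401001c903001d2103001c431201ed06004d06004d0a004d3106004d4320510901ed0a01ed07004d2101001c03001d01001c413400001c00001c00001c2100001c431401ed0800fd40a01ed07004d40b039d10d039d2100001c00001c0a039d2100001c43210901ed00001c30901ed20800fd0b070d0800fd210800fd0800fd12121280f677a7a47 = true := by decide +kernel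

theorem k63 : ckO Pool.Agent.W_4481e3_tab.T3.tab 15072 19280 268435456 131072 185139 262144 5 3670016 524288 2621440 524288 515354132 515354132 7172260 7172260 268435456 268435456 16777216 16777216 264766 264766 0x100001c00001c201001c01001c02007c202000c03000c2121 = true := by decide +kernel

theorem k66 : ckO Pool.Agent.W_4481e3_tab.T3.tab 15072 19280 268435456 131072 185139 262144 4 3670016 524288 2621440 524288 522526392 493837352 14344520 14344520 268435456 268435456 16777216 16777216 264766 264766 0x100001c00001c01001c01001c121 = true := by decide +kernel

theorem k68 : ckO Pool.Agent.W_4481e3_tab.T3.tab 15072 19280 268435456 131072 185139 262144 2 3670016 524288 2621440 524288 493837352 508181872 14344520 28689040 268435456 268435456 16777216 16777216 264766 264766 0x100000c00001c2 = true := by decide +kernel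

end Pool.Agent.W_4481e3_rt.s32o3
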